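import Mathlib
import Pool.Agent.Y109.PI.Fac

/-! Unramified period-index for curves times abelian varieties and for abelian fibrations: every degree. -/

set_option autoImplicit false
set_option linter.all false

open scoped TensorProduct

namespace Pool.Agent.Results.MP_43d240_ag.FactorialBound

open Pool.Agent.Helper18.Br Pool.Agent.H552R3.SymBr Pool.Agent.H552R3.SymPred Pool.Agent.H552R3.Tsen
  Pool.Agent.Y109.PI

universe u

/-- Let `K` be an extension of an algebraically closed field `k`, let `ζ ∈ k` be a primitive `n`-th root of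
unity, `L` an intermediate field, and let `x_1, y_1, ..., x_g, y_g` be nonzero elements of `K` such that the
sum of the symbols `(x_i, y_i)` of degree `n` is a combination of symbols `(a, b)` of degree `n` with `a ∈ L`
and `b ∈ L ∪ {x_1, y_1, ..., x_g, y_g}` (for instance such that this sum vanishes). Let `α` be a class in the
subgroup of `Br(K)` generated by all symbols of degree `n` with entries in the group generated by `Lˣ`, the
`x_i` and the `y_i`. Put `N = n ^ g * ∏_{p ∣ n} p ^ v_p(g!)`. Then:
(1) if `L` has transcendence degree at most one over `k`, then the index of `α` divides `N`; in particular it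
divides `n ^ g` if `n` is prime to `g!`;
(2) if `L` has transcendence degree at most `e` over `k` and if, over every extension of `k` of transcendence
degree at most `e`, the index of all classes generated by symbols of degree `n` divides `m`, then the index
of `α` divides `m * N`;
(3) if all prime divisors of `n` are larger than `g`, then `α` is the sum of `g` symbols of degree `n` and of a
class `β` generated by symbols of degree `n` with entries in `L`, where `β = 0` if `L` has transcendence degree
at most one over `k`; and if the index of every class generated by symbols of degree `n` with entries in `L`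
divides `m`, then the index of `α` divides `m * n ^ g`. -/
theorem result {k K : Type u} [Field k] [IsAlgClosed k] [Field K] [Algebra k K] (n : ℕ) (hn : 0 < n)
    (ζ : k) (hζ : IsPrimitiveRoot ζ n) (L : IntermediateField k K) (g : ℕ) (x y : Fin g → Kˣ)
    (θ : Fin g → BrauerGroup.{u, u} K) (hθ : ∀ i, IsSym n (algebraMap k K ζ) (x i) (y i) (θ i))
    (hpol : ∏ i, θ i ∈ Subgroup.closure {γ | ∃ a b : Kˣ, (a : K) ∈ L ∧
      ((b : K) ∈ L ∨ b ∈ Set.range x ∨ b ∈ Set.range y) ∧ IsSym n (algebraMap k K ζ) a b γ})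
    (G : Subgroup Kˣ) (hG : G = Subgroup.closure ({a : Kˣ | (a : K) ∈ L} ∪ Set.range x ∪ Set.range y))
    (V : Subgroup (BrauerGroup.{u, u} K))
    (hV : V = Subgroup.closure {γ | ∃ a b : Kˣ, (a : K) ∈ L ∧ (b : K) ∈ L ∧ IsSym n (algebraMap k K ζ) a b γ})
    (α : BrauerGroup.{u, u} K)
    (hα : α ∈ Subgroup.closure {γ | ∃ a ∈ G, ∃ b ∈ G, IsSym n (algebraMap k K ζ) a b γ}) :
    (Algebra.trdeg k L ≤ 1 →
      IndDvd α (n ^ g * ∏ p ∈ n.primeFactors, p ^ (g.factorial.factorization p)) ∧
      (n.Coprime g.factorial → IndDvd α (n ^ g))) ∧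
    (∀ e m : ℕ, 0 < m → Algebra.trdeg k L ≤ e →
      (∀ (M : Type u) [Field M] [Algebra k M], Algebra.trdeg k M ≤ e →
        ∀ β ∈ Subgroup.closure {γ : BrauerGroup.{u, u} M | ∃ a b : Mˣ, IsSym n (algebraMap k M ζ) a b γ},
        IndDvd β m) →
      IndDvd α (m * (n ^ g * ∏ p ∈ n.primeFactors, p ^ (g.factorial.factorization p)))) ∧
    ((∀ p : ℕ, p.Prime → p ∣ n → g < p) →
      (∃ (s t : Fin g → Kˣ) (σ : Fin g → BrauerGroup.{u, u} K) (β : BrauerGroup.{u, u} K),
        (∀ i, IsSym n (algebraMap k K ζ) (s i) (t i) (σ i)) ∧ β ∈ V ∧ (Algebra.trdeg k L ≤ 1 → β = 1) ∧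
        α = (∏ i, σ i) * β) ∧
      ∀ m : ℕ, 0 < m → (∀ β ∈ V, IndDvd β m) → IndDvd α (m * n ^ g)) := by
  have hK := rootK K hζ
  -- the subgroup `H = Lˣ`
  let H : Subgroup Kˣ :=
    { carrier := {x : Kˣ | (x : K) ∈ L}
      mul_mem' := fun {a b} ha hb => by
        change ((a * b : Kˣ) : K) ∈ L
        rw [Units.val_mul]; exact L.mul_mem ha hb
      one_mem' := L.one_mem
      inv_mem' := fun {a} ha => by
        change ((a⁻¹ : Kˣ) : K) ∈ L
        rw [Units.val_inv_eq_inv_val]; exact L.inv_mem ha }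
  have hneg : (-1 : Kˣ) ∈ H := by
    change ((-1 : Kˣ) : K) ∈ L
    rw [Units.val_neg, Units.val_one]
    exact L.neg_mem L.one_mem
  have hVH : ∀ a ∈ H, ∀ b ∈ H, symCl hn hK a b ∈ V := fun a ha b hb => by
    rw [hV]
    exact Subgroup.subset_closure ⟨a, b, ha, hb, (isSym_iff hn hK a b _).2 rfl⟩
  have hVVL : V = VL hn hζ K L := by
    rw [hV, VL]
    congr 1
    ext γ
    simp only [Set.mem_setOf_eq, isSym_iff hn hK]
  let z : Fin g ⊕ Fin g → Kˣ := Sum.elim x y
  have hz : Set.range z = Set.range x ∪ Set.range y := Set.Sum.elim_range x y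
  have hGH : G = H ⊔ Subgroup.closure (Set.range z) := by
    rw [hG, Set.union_assoc, Subgroup.closure_union, hz]
    congr 1
    exact Subgroup.closure_eq H
  have hα' : α ∈ Subgroup.closure {γ | ∃ a ∈ H ⊔ Subgroup.closure (Set.range z),
      ∃ b ∈ H ⊔ Subgroup.closure (Set.range z), γ = symHom hn hK a b} := by
    have : {γ | ∃ a ∈ G, ∃ b ∈ G, IsSym n (algebraMap k K ζ) a b γ} =
        {γ | ∃ a ∈ H ⊔ Subgroup.closure (Set.range z),
      ∃ b ∈ H ⊔ Subgroup.closure (Set.range z), γ = symHom hn hK a b} := by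
      ext γ
      simp only [Set.mem_setOf_eq, isSym_iff hn hK, hGH, symHom_apply]
    rw [← this]; exact hα
  have hrel : ∏ i, symHom hn hK (z (Sum.inl i)) (z (Sum.inr i)) ∈ low (symHom hn hK) H V z := by
    have h1 : ∏ i, symHom hn hK (z (Sum.inl i)) (z (Sum.inr i)) = ∏ i, θ i :=
      Finset.prod_congr rfl fun i _ => ((isSym_iff hn hK (x i) (y i) (θ i)).1 (hθ i)).symm
    rw [h1]
    refine (Subgroup.closure_le (low (symHom hn hK) H V z)).2 ?_ hpol
    rintro γ ⟨a, b, ha, hb, hab⟩
    rw [isSym_iff hn hK] at hab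
    subst hab
    rcases hb with hb | ⟨i, rfl⟩ | ⟨i, rfl⟩
    · exact low_V (symHom hn hK) (hVH a ha b hb)
    · exact low_sym (symHom hn hK) (V := V) (z := z) (H := H) ha (Sum.inl i)
    · exact low_sym (symHom hn hK) (V := V) (z := z) (H := H) ha (Sum.inr i)
  -- Tsen
  have hbase1 : Base hn hζ 1 1 := by
    intro M _ _ hM β hβ
    have hle : Subgroup.closure {γ : BrauerGroup.{u, u} M | ∃ a b : Mˣ, γ = symCl hn (rootK M hζ) a b} ≤ ⊥ := by
      rw [Subgroup.closure_le]
      rintro γ ⟨a, b, rfl⟩
      have hdep : ¬ AlgebraicIndependent k ![(a : M), (b : M)] := by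
        intro h
        have h2 := h.lift_cardinalMk_le_trdeg
        have h3 := h2.trans (Cardinal.lift_le.2 hM)
        simp at h3
      rw [SetLike.mem_coe, Subgroup.mem_bot]
      exact tsen hn hζ a b hdep
    have h6 := hle hβ
    rw [Subgroup.mem_bot] at h6
    subst h6
    exact hasRep_one.indDvd
  have hVbot : Algebra.trdeg k L ≤ 1 → V ≤ ⊥ := by
    intro hL
    rw [hV, Subgroup.closure_le]
    rintro γ ⟨a, b, ha, hb, hab⟩
    have hdep : ¬ AlgebraicIndependent k ![(a : K), (b : K)] := by
      intro h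
      have h1 : AlgebraicIndependent k ![(⟨a, ha⟩ : L), (⟨b, hb⟩ : L)] := by
        apply AlgebraicIndependent.of_comp L.val
        convert h using 1
        funext i
        fin_cases i <;> rfl
      have h2 := h1.lift_cardinalMk_le_trdeg
      have h3 := h2.trans (Cardinal.lift_le.2 hL)
      simp at h3
    have h4 := (isSym_iff hn hK a b γ).1 hab
    rw [SetLike.mem_coe, Subgroup.mem_bot, h4]
    exact tsen hn hζ a b hdep
  -- the general bound
  have main : ∀ e m : ℕ, 0 < m → Algebra.trdeg k L ≤ e → Base hn hζ e m →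
      IndDvd α (m * (n ^ g * corr n g)) := by
    intro e m hm hL hbase
    refine index_fac hn hζ hm hbase L hL H (fun a => Iff.rfl) z g (by simp [two_mul]) (polw g) ?_ ?_ α hα'
    · rw [Q_polw, ← hVVL]
      exact hrel
    · rw [polw_mat, Matrix.det_transpose]
      obtain ⟨t, ht⟩ := (Matrix.isUnit_det_J (Fin g) ℤ).exists_left_inv
      exact ⟨t, 0, by rw [ht]; ring⟩
  refine ⟨fun hL => ?_, fun e m hm hL hb => ?_, fun hg => ?_⟩
  · have h1 := main 1 1 one_pos (by exact_mod_cast hL) hbase1
    rw [one_mul] at h1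
    refine ⟨h1, fun hc => ?_⟩
    have hc1 : corr n g = 1 := by
      rw [corr]
      refine Finset.prod_eq_one fun p hp => ?_
      have hpp := Nat.prime_of_mem_primeFactors hp
      have h2 : g.factorial.factorization p = 0 := by
        refine Nat.factorization_eq_zero_of_not_dvd fun h => ?_
        have h3 := Nat.dvd_gcd (Nat.dvd_of_mem_primeFactors hp) h
        rw [hc] at h3
        exact hpp.one_lt.ne' (Nat.dvd_one.1 h3)
      rw [h2, pow_zero]
    rwa [hc1, mul_one] at h1
  · refine main e m hm hL fun M _ _ hM β hβ => hb M hM β ?_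
    have : {γ : BrauerGroup.{u, u} M | ∃ a b : Mˣ, γ = symCl hn (rootK M hζ) a b} =
        {γ : BrauerGroup.{u, u} M | ∃ a b : Mˣ, IsSym n (algebraMap k M ζ) a b γ} := by
      ext γ
      simp only [Set.mem_setOf_eq, isSym_iff hn (rootK M hζ)]
    rw [← this]; exact hβ
  · obtain ⟨s, t, β, hβ, hαβ⟩ := abs_main (s := symHom hn hK) (fun a b => symCl_anti hn hK a b) n hn
      (fun a b => symCl_tors hn hK a b) (-1) H hneg (fun a => symCl_diag hn hK a) V hVH z g (by simp [two_mul])
      (fun b hb => pol_ND (symHom hn hK) H V n hn hg z hrel b hb) α hα'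
    refine ⟨⟨s, t, fun i => symCl hn hK (s i) (t i), β, fun i => (isSym_iff hn hK _ _ _).2 rfl, hβ,
      fun hL => by simpa using hVbot hL hβ, hαβ⟩, fun m hm hVm => ?_⟩
    rw [hαβ, mul_comm m]
    exact ((hasRep_prod hn hK g s t).mul ((hVm β hβ).hasRep hm)).indDvd

end Pool.Agent.Results.MP_43d240_ag.FactorialBound
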