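import Mathlib
import Pool.Agent.Y109.PI.RM

/-! Unramified period-index for abelian varieties with many divisor classes. -/

set_option autoImplicit false
set_option linter.all false

open scoped TensorProduct

namespace Pool.Agent.Results.MP_43d240_ag.RealMultiplication

open Pool.Agent.Helper18.Br Pool.Agent.H552R3.SymBr Pool.Agent.H552R3.SymPred Pool.Agent.H552R3.Tsen
  Pool.Agent.Y109.PI

universe u v

/-- The general statement: see `result`. -/
theorem general {k K : Type u} [Field k] [IsAlgClosed k] [Field K] [Algebra k K] (n : ℕ) (hn : 0 < n)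
    (ζ : K) (hζ : IsPrimitiveRoot ζ n) (g : ℕ) (hg : 0 < g) (z : Fin g ⊕ Fin g → Kˣ)
    (θ : Fin g ⊕ Fin g → Fin g ⊕ Fin g → BrauerGroup.{u, u} K) (hθ : ∀ u v, IsSym n ζ (z u) (z v) (θ u v))
    (w : Fin g → Fin g ⊕ Fin g → Fin g ⊕ Fin g → ℤ)
    (hord : ∀ p : ℕ, p.Prime → p ∣ n → ¬ p ∣ Nat.card {c : Fin g → ZMod p //
      (∑ i, c i • (Matrix.of fun u v => ((w i u v - w i v u : ℤ) : ZMod p))).det = 0}) :
    (∀ (L : IntermediateField k K),
      (∀ i, ∏ u, ∏ v, θ u v ^ w i u v ∈ Subgroup.closure {γ | ∃ a b : Kˣ, (a : K) ∈ L ∧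
        ((b : K) ∈ L ∨ b ∈ Set.range z) ∧ IsSym n ζ a b γ}) →
      ∀ (G : Subgroup Kˣ), G = Subgroup.closure ({a : Kˣ | (a : K) ∈ L} ∪ Set.range z) →
      ∀ (V : Subgroup (BrauerGroup.{u, u} K)),
        V = Subgroup.closure {γ | ∃ a b : Kˣ, (a : K) ∈ L ∧ (b : K) ∈ L ∧ IsSym n ζ a b γ} →
      ∀ α ∈ Subgroup.closure {γ | ∃ a ∈ G, ∃ b ∈ G, IsSym n ζ a b γ},
        (∃ (s t : Fin g → Kˣ) (σ : Fin g → BrauerGroup.{u, u} K), ∃ β ∈ V,
          (∀ i, IsSym n ζ (s i) (t i) (σ i)) ∧ α = (∏ i, σ i) * β) ∧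
        (∀ m : ℕ, 0 < m → (∀ β ∈ V, IndDvd β m) → IndDvd α (m * n ^ g)) ∧
        (Algebra.trdeg k L ≤ 1 → IndDvd α (n ^ g))) ∧
    (Squarefree n → (∀ i, ∏ u, ∏ v, θ u v ^ w i u v = 1) →
      ∀ (G : Subgroup Kˣ), G = Subgroup.closure (Set.range (Units.map (algebraMap k K).toMonoidHom) ∪ Set.range z) →
      ∀ α ∈ Subgroup.closure {γ | ∃ a ∈ G, ∃ b ∈ G, IsSym n ζ a b γ},
        (∃ (s t : Fin (g - 1) → Kˣ) (σ : Fin (g - 1) → BrauerGroup.{u, u} K),
          (∀ i, IsSym n ζ (s i) (t i) (σ i)) ∧ α = ∏ i, σ i) ∧ IndDvd α (n ^ (g - 1))) := by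
  have hord' : ∀ p : ℕ, p.Prime → p ∣ n → OrdAt p g w := by
    intro p hp hpn
    have h := hord p hp hpn
    have e : ∀ i, red p (dif (w i)) = Matrix.of fun u v => ((w i u v - w i v u : ℤ) : ZMod p) := fun i => rfl
    rw [OrdAt]
    simp only [e]
    exact h
  have hQ : ∀ i, Q (symHom hn hζ) z (w i) = ∏ u, ∏ v, θ u v ^ w i u v := by
    intro i
    rw [Q, Fintype.prod_prod_type]
    refine Finset.prod_congr rfl fun u _ => Finset.prod_congr rfl fun v _ => ?_
    rw [(isSym_iff hn hζ (z u) (z v) (θ u v)).1 (hθ u v), symHom_apply]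
  constructor
  · intro L hrel0 G hG V hV α hα
    let H : Subgroup Kˣ :=
      { carrier := {x : Kˣ | (x : K) ∈ L}
        mul_mem' := fun {a b} ha hb => by
          change ((a * b : Kˣ) : K) ∈ L
          rw [Units.val_mul]; exact L.mul_mem ha hb
        one_mem' := L.one_mem
        inv_mem' := fun {a} ha => by
          change ((a⁻¹ : Kˣ) : K) ∈ L
          rw [Units.val_inv_eq_inv_val]; exact L.inv_mem ha }
    have hneg : (-1 : Kˣ) ∈ H := by
      change ((-1 : Kˣ) : K) ∈ L
      rw [Units.val_neg, Units.val_one]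
      exact L.neg_mem L.one_mem
    have hVH : ∀ a ∈ H, ∀ b ∈ H, symHom hn hζ a b ∈ V := fun a ha b hb => by
      rw [hV]
      exact Subgroup.subset_closure ⟨a, b, ha, hb, (isSym_iff hn hζ a b _).2 rfl⟩
    have hGH : G = H ⊔ Subgroup.closure (Set.range z) := by
      rw [hG, Subgroup.closure_union]
      congr 1
      exact Subgroup.closure_eq H
    have hα' : α ∈ Subgroup.closure {γ | ∃ a ∈ H ⊔ Subgroup.closure (Set.range z),
        ∃ b ∈ H ⊔ Subgroup.closure (Set.range z), γ = symHom hn hζ a b} := by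
      have : {γ | ∃ a ∈ G, ∃ b ∈ G, IsSym n ζ a b γ} = {γ | ∃ a ∈ H ⊔ Subgroup.closure (Set.range z),
        ∃ b ∈ H ⊔ Subgroup.closure (Set.range z), γ = symHom hn hζ a b} := by
        ext γ
        simp only [Set.mem_setOf_eq, isSym_iff hn hζ, hGH, symHom_apply]
      rw [← this]; exact hα
    have hrel : ∀ i, Q (symHom hn hζ) z (w i) ∈ low (symHom hn hζ) H V z := by
      intro i
      rw [hQ i]
      refine (Subgroup.closure_le (low (symHom hn hζ) H V z)).2 ?_ (hrel0 i)
      rintro γ ⟨a, b, ha, hb, hab⟩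
      rw [isSym_iff hn hζ] at hab
      subst hab
      rcases hb with hb | ⟨u, rfl⟩
      · exact low_V (symHom hn hζ) (hVH a ha b hb)
      · exact low_sym (symHom hn hζ) (V := V) (z := z) (H := H) ha u
    obtain ⟨s, t, β, hβ, hαβ⟩ := abs_ord (s := symHom hn hζ) (fun a b => symCl_anti hn hζ a b) n hn
      (fun a b => symCl_tors hn hζ a b) (-1) H hneg (fun a => symCl_diag hn hζ a) V hVH g hg (by simp [two_mul]) z w hrel hord' α hα'
    have key : ∀ m : ℕ, 0 < m → (∀ β ∈ V, IndDvd β m) → IndDvd α (m * n ^ g) := fun m hm hVm => by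
      rw [hαβ, mul_comm m]
      exact ((hasRep_prod hn hζ g s t).mul ((hVm β hβ).hasRep hm)).indDvd
    refine ⟨⟨s, t, fun i => symCl hn hζ (s i) (t i), β, hβ, fun i => (isSym_iff hn hζ _ _ _).2 rfl, hαβ⟩, key,
      fun hL => ?_⟩
    have h5 := key 1 one_pos (fun β hβ => by
      have h6 : β ∈ (⊥ : Subgroup (BrauerGroup.{u, u} K)) := by
        refine (?_ : V ≤ ⊥) hβ
        rw [hV, Subgroup.closure_le]
        rintro γ ⟨a, b, ha, hb, hab⟩
        have hdep : ¬ AlgebraicIndependent k ![(a : K), (b : K)] := by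
          intro h
          have h1 : AlgebraicIndependent k ![(⟨a, ha⟩ : L), (⟨b, hb⟩ : L)] := by
            apply AlgebraicIndependent.of_comp L.val
            convert h using 1
            funext i
            fin_cases i <;> rfl
          have h2 := h1.lift_cardinalMk_le_trdeg
          have h3 := h2.trans (Cardinal.lift_le.2 hL)
          simp at h3
        obtain ⟨w', hw'⟩ : ∃ w : k, algebraMap k K w = ζ :=
          mem_range_of_alg ζ ⟨Polynomial.X ^ n - Polynomial.C 1, Polynomial.X_pow_sub_C_ne_zero hn 1, by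
            simp [hζ.pow_eq_one]⟩
        subst hw'
        have hw2 : IsPrimitiveRoot w' n := hζ.of_map_of_injective (algebraMap k K).injective
        have h4 := (isSym_iff hn (rootK K hw2) a b γ).1 hab
        rw [SetLike.mem_coe, Subgroup.mem_bot, h4]
        exact tsen hn hw2 a b hdep
      rw [Subgroup.mem_bot] at h6
      subst h6
      exact hasRep_one.indDvd)
    rwa [one_mul] at h5
  · intro hsq hrel0 G hG α hα
    let H : Subgroup Kˣ := (Units.map (algebraMap k K).toMonoidHom).range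
    have hneg : (-1 : Kˣ) ∈ H := by
      refine ⟨-1, ?_⟩
      ext
      simp
    -- constants are `n`-th powers
    have hconst : ∀ a ∈ H, ∀ b, symHom hn hζ a b = 1 := by
      rintro _ ⟨c, rfl⟩ b
      obtain ⟨d, hd⟩ := IsAlgClosed.exists_pow_nat_eq (c : k) hn
      have hd0 : d ≠ 0 := by
        rintro rfl
        rw [zero_pow hn.ne'] at hd
        exact c.ne_zero hd.symm
      have hc : c = (Units.mk0 d hd0) ^ n := by
        ext
        rw [Units.val_pow_eq_pow_val, Units.val_mk0, hd]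
      rw [hc, map_pow, map_pow, MonoidHom.pow_apply, symHom_apply, symCl_tors]
    have hVH : ∀ a ∈ H, ∀ b ∈ H, symHom hn hζ a b ∈ (⊥ : Subgroup (BrauerGroup.{u, u} K)) := fun a ha b _ => by
      rw [hconst a ha b]; exact Subgroup.one_mem _
    have hlow : low (symHom hn hζ) H ⊥ z ≤ (⊥ : Subgroup (BrauerGroup.{u, u} K)) := by
      refine sup_le le_rfl ?_
      rw [Subgroup.closure_le]
      rintro γ ⟨a, ha, u, rfl⟩
      rw [hconst a ha]
      exact Subgroup.one_mem _
    have hGH : G = H ⊔ Subgroup.closure (Set.range z) := by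
      rw [hG, Subgroup.closure_union]
      congr 1
      exact Subgroup.closure_eq H
    have hα' : α ∈ Subgroup.closure {γ | ∃ a ∈ H ⊔ Subgroup.closure (Set.range z),
        ∃ b ∈ H ⊔ Subgroup.closure (Set.range z), γ = symHom hn hζ a b} := by
      have : {γ | ∃ a ∈ G, ∃ b ∈ G, IsSym n ζ a b γ} = {γ | ∃ a ∈ H ⊔ Subgroup.closure (Set.range z),
        ∃ b ∈ H ⊔ Subgroup.closure (Set.range z), γ = symHom hn hζ a b} := by
        ext γ
        simp only [Set.mem_setOf_eq, isSym_iff hn hζ, hGH, symHom_apply]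
      rw [← this]; exact hα
    obtain ⟨s, t, hst⟩ := abs_sing (s := symHom hn hζ) (fun a b => symCl_anti hn hζ a b) n hsq
      (fun a b => symCl_tors hn hζ a b) (-1) H hneg (fun a => symCl_diag hn hζ a) ⊥ hVH g hg (by simp [two_mul]) z w
      (fun i => by rw [hQ i, hrel0 i]; exact Subgroup.one_mem _) hord' α hα'
    have h1 := hlow hst
    rw [Subgroup.mem_bot, mul_inv_eq_one] at h1
    refine ⟨⟨s, t, fun i => symCl hn hζ (s i) (t i), fun i => (isSym_iff hn hζ _ _ _).2 rfl, h1⟩, ?_⟩
    rw [h1]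
    exact (hasRep_prod hn hζ (g - 1) s t).indDvd

/-- Let `K` be an extension of an algebraically closed field `k`, let `ζ ∈ K` be a primitive `n`-th root of
unity and let `z_1, ..., z_{2g}` (`g ≥ 1`, indexed by two copies of `{1, ..., g}`) be nonzero elements of `K`; let
`(a, b)` denote symbols of degree `n`. Let `w_1, ..., w_g` be integral `2g × 2g` matrices such that for every prime
divisor `p` of `n` the number of `c ∈ F_p^g` for which the alternating matrix `∑ c_i (w_i - w_iᵀ)` over `F_p`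
is degenerate is not divisible by `p`.

(A) Let `L` be an intermediate field such that for each `i` the class `∑ w_i(u,v) (z_u, z_v)` is a combination
of symbols `(a, b)` with `a ∈ L` and `b ∈ L ∪ {z_1, ..., z_{2g}}`. Then every class `α` generated by symbols with
entries in the group generated by `Lˣ` and the `z_u` is the sum of `g` symbols and a class generated by symbols with
entries in `L`; if the index of all classes generated by symbols with entries in `L` divides `m`, then the index of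
`α` divides `m * n ^ g`; if `L` has transcendence degree at most one over `k`, then the index of `α` divides `n ^ g`.

(B) If `n` is squarefree and `∑ w_i(u,v) (z_u, z_v) = 0` for all `i`, then every class generated by symbols with
entries in the group generated by `kˣ` and the `z_u` is the sum of `g - 1` symbols of degree `n`, and its index
divides `n ^ (g - 1)`.

(C) The condition on the `w_i` holds for the relations of real multiplication: let `O` be a commutative ring which
is free of rank `g` over `ℤ` with basis `ε_1, ..., ε_g` and discriminant not divisible by `p` (for instance the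
ring of integers of a totally real number field in which `p` is unramified), and let `w_i` be the matrix with the
entries `Tr(ε_i ε_k ε_l)` in the places `(k, g + l)` and zeros elsewhere. Then the number of `c ∈ F_p^g` for which
`∑ c_i (w_i - w_iᵀ)` is degenerate over `F_p` is not divisible by `p`. -/
theorem result :
    (∀ {k K : Type u} [Field k] [IsAlgClosed k] [Field K] [Algebra k K] (n : ℕ) (hn : 0 < n)
      (ζ : K) (hζ : IsPrimitiveRoot ζ n) (g : ℕ) (hg : 0 < g) (z : Fin g ⊕ Fin g → Kˣ)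
      (θ : Fin g ⊕ Fin g → Fin g ⊕ Fin g → BrauerGroup.{u, u} K) (hθ : ∀ u v, IsSym n ζ (z u) (z v) (θ u v))
      (w : Fin g → Fin g ⊕ Fin g → Fin g ⊕ Fin g → ℤ)
      (hord : ∀ p : ℕ, p.Prime → p ∣ n → ¬ p ∣ Nat.card {c : Fin g → ZMod p //
        (∑ i, c i • (Matrix.of fun u v => ((w i u v - w i v u : ℤ) : ZMod p))).det = 0}),
      (∀ (L : IntermediateField k K),
        (∀ i, ∏ u, ∏ v, θ u v ^ w i u v ∈ Subgroup.closure {γ | ∃ a b : Kˣ, (a : K) ∈ L ∧
          ((b : K) ∈ L ∨ b ∈ Set.range z) ∧ IsSym n ζ a b γ}) →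
        ∀ (G : Subgroup Kˣ), G = Subgroup.closure ({a : Kˣ | (a : K) ∈ L} ∪ Set.range z) →
        ∀ (V : Subgroup (BrauerGroup.{u, u} K)),
          V = Subgroup.closure {γ | ∃ a b : Kˣ, (a : K) ∈ L ∧ (b : K) ∈ L ∧ IsSym n ζ a b γ} →
        ∀ α ∈ Subgroup.closure {γ | ∃ a ∈ G, ∃ b ∈ G, IsSym n ζ a b γ},
          (∃ (s t : Fin g → Kˣ) (σ : Fin g → BrauerGroup.{u, u} K), ∃ β ∈ V,
            (∀ i, IsSym n ζ (s i) (t i) (σ i)) ∧ α = (∏ i, σ i) * β) ∧
          (∀ m : ℕ, 0 < m → (∀ β ∈ V, IndDvd β m) → IndDvd α (m * n ^ g)) ∧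
          (Algebra.trdeg k L ≤ 1 → IndDvd α (n ^ g))) ∧
      (Squarefree n → (∀ i, ∏ u, ∏ v, θ u v ^ w i u v = 1) →
        ∀ (G : Subgroup Kˣ), G = Subgroup.closure (Set.range (Units.map (algebraMap k K).toMonoidHom) ∪ Set.range z) →
        ∀ α ∈ Subgroup.closure {γ | ∃ a ∈ G, ∃ b ∈ G, IsSym n ζ a b γ},
          (∃ (s t : Fin (g - 1) → Kˣ) (σ : Fin (g - 1) → BrauerGroup.{u, u} K),
            (∀ i, IsSym n ζ (s i) (t i) (σ i)) ∧ α = ∏ i, σ i) ∧ IndDvd α (n ^ (g - 1)))) ∧
    (∀ (O : Type v) [CommRing O] (g : ℕ) (ε : Module.Basis (Fin g) ℤ O) (p : ℕ), 0 < g → p.Prime →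
      ¬ (p : ℤ) ∣ Algebra.discr ℤ ε → ∀ w : Fin g → Fin g ⊕ Fin g → Fin g ⊕ Fin g → ℤ,
        (∀ i k l, w i (Sum.inl k) (Sum.inr l) = Algebra.trace ℤ O (ε i * ε k * ε l)) →
        (∀ i k l, w i (Sum.inl k) (Sum.inl l) = 0 ∧ w i (Sum.inr k) (Sum.inl l) = 0 ∧
          w i (Sum.inr k) (Sum.inr l) = 0) →
        ¬ p ∣ Nat.card {c : Fin g → ZMod p //
          (∑ i, c i • (Matrix.of fun u v => ((w i u v - w i v u : ℤ) : ZMod p))).det = 0}) := by
  refine ⟨fun n hn ζ hζ g hg z θ hθ w hord => general n hn ζ hζ g hg z θ hθ w hord, ?_⟩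
  intro O _ g ε p hg hp hd w hw hw0
  haveI : Fact p.Prime := ⟨hp⟩
  have h := rm_ord ε p hg hd
  have e : w = rmw ε := by
    funext i u v
    rcases u with u | u <;> rcases v with v | v
    · exact (hw0 i u v).1
    · exact hw i u v
    · exact (hw0 i u v).2.1
    · exact (hw0 i u v).2.2
  rw [e]
  exact h

end Pool.Agent.Results.MP_43d240_ag.RealMultiplication
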